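import Pool.Agent.Lib_MP_10b5ac_nt.Subspace
import Pool.Agent.Lib_MP_10b5ac_nt.Approx
import Pool.Agent.Lib_MP_10b5ac_nt.NoAlg
import Pool.Agent.Lib_MP_10b5ac_nt.Irr
import Pool.Agent.Lib_MP_10b5ac_nt.Regular

/-!
# Transcendence of concatenation constants of regular sequences

Let `a` be a `k`-regular sequence of positive integers which is strictly increasing from some index on. We
show that the real number `0.(a(0))_b (a(1))_b (a(2))_b …`, whose base-`b` digits are the base-`b` expansions
of `a(0), a(1), a(2), …` written one after another, is transcendental.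

The number is given here by its digits. It equals `∑ a(n) / b^(ℓ(0) + … + ℓ(n))`, `ℓ(i)` the number of digits
of `a(i)` (`hasSum_digits`), shifts of `k`-regular sequences are `k`-regular (`shift_fg`), so one may assume
that the sequence is strictly increasing. In this case the numbers `b^(r + s j)`-linear combinations of
the number and `1` which the linear representation of the sequence provides are very small, and the
parametric Subspace theorem (proved in the library from Mathlib alone) excludes algebraic numbers.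
-/

set_option autoImplicit false

open Finset

namespace Pool.Agent.Results.MP_10b5ac_nt.Concatenation

/-- The base-`b` expansion of `m`: the string of the base-`b` digits of `m`, most significant digit
first, without leading zeros. -/
def expansion (b m : ℕ) : List ℕ := (Nat.digits b m).reverse

/-- The strings `(a(0))_b, (a(1))_b, …, (a(N-1))_b` written one after another. -/
def word (b : ℕ) (a : ℕ → ℕ) (N : ℕ) : List ℕ :=
  ((List.range N).map fun n => expansion b (a n)).flatten

/-- The integer sequence `a` is `k`-regular: the `ℤ`-module generated by its `k`-kernel is finitely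
generated. -/
def IsRegular (k : ℕ) (a : ℕ → ℤ) : Prop :=
  (Submodule.span ℤ {f : ℕ → ℤ | ∃ e r : ℕ, r < k ^ e ∧ f = fun n => a (k ^ e * n + r)}).FG

/-- shifts of regular sequences are regular -/
private theorem shift_fg (k : ℕ) (hk : 2 ≤ k) (a : ℕ → ℤ) (ha : IsRegular k a) (N : ℕ) :
    IsRegular k (fun n => a (n + N)) := by
  let T : ℕ → (ℕ → ℤ) →ₗ[ℤ] (ℕ → ℤ) := fun q =>
    { toFun := fun f n => f (n + q)
      map_add' := fun f g => rfl
      map_smul' := fun c f => rfl }
  unfold IsRegular at *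
  refine Submodule.FG.of_le (T := ⨆ q ∈ range (N + 1), (Submodule.span ℤ {f : ℕ → ℤ |
    ∃ e r : ℕ, r < k ^ e ∧ f = fun n => a (k ^ e * n + r)}).map (T q))
    (Submodule.fg_biSup _ _ fun q _ => ha.map _) ?_
  rw [Submodule.span_le]
  rintro f ⟨e, r, hr, rfl⟩
  have hke : 0 < k ^ e := pow_pos (by omega) e
  have hq : (r + N) / k ^ e < N + 1 := by
    rw [Nat.div_lt_iff_lt_mul hke]
    calc r + N < k ^ e + N := by omega
      _ ≤ k ^ e + k ^ e * N := Nat.add_le_add_left (Nat.le_mul_of_pos_left _ hke) _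
      _ = (N + 1) * k ^ e := by ring
  refine Submodule.mem_iSup_of_mem ((r + N) / k ^ e) (Submodule.mem_iSup_of_mem
    (mem_range.2 hq) ?_)
  refine ⟨fun n => a (k ^ e * n + (r + N) % k ^ e),
    Submodule.subset_span ⟨e, (r + N) % k ^ e, Nat.mod_lt _ hke, rfl⟩, ?_⟩
  funext n
  show a (k ^ e * (n + (r + N) / k ^ e) + (r + N) % k ^ e) = a (k ^ e * n + r + N)
  congr 1
  have h1 := Nat.div_add_mod (r + N) (k ^ e)
  rw [mul_add, add_assoc, h1, add_assoc]

private theorem word_succ (b : ℕ) (a : ℕ → ℕ) (N : ℕ) :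
    word b a (N + 1) = word b a N ++ expansion b (a N) := by
  unfold word
  rw [List.range_succ, List.map_append, List.flatten_append]
  simp

private theorem word_length (b : ℕ) (a : ℕ → ℕ) (N : ℕ) :
    (word b a N).length = ∑ i ∈ range N, (Nat.digits b (a i)).length := by
  induction N with
  | zero => rfl
  | succ N ih => rw [word_succ, List.length_append, ih, sum_range_succ, expansion, List.length_reverse]

private theorem word_prefix (b : ℕ) (a : ℕ → ℕ) {M N : ℕ} (h : M ≤ N) :
    word b a M <+: word b a N := by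
  induction N, h using Nat.le_induction with
  | base => exact List.prefix_rfl
  | succ N _ ih =>
    rw [word_succ]
    exact ih.trans (List.prefix_append _ _)

private theorem le_length (b : ℕ) (a : ℕ → ℕ) (hpos : ∀ n, 0 < a n) (N : ℕ) :
    N ≤ (word b a N).length := by
  rw [word_length]
  calc N = ∑ _i ∈ range N, 1 := by simp
    _ ≤ _ := sum_le_sum fun i _ => by
      rw [Nat.one_le_iff_ne_zero, Ne, List.length_eq_zero_iff, Nat.digits_eq_nil_iff_eq_zero]
      exact (hpos i).ne'

/-- the value of a string of digits after the radix point -/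
private noncomputable def val (b : ℕ) (l : List ℕ) : ℝ :=
  ((Nat.ofDigits b l.reverse : ℕ) : ℝ) / (b : ℝ) ^ l.length

private theorem val_eq_sum (b : ℕ) (hb : 2 ≤ b) (l : List ℕ) :
    val b l = ∑ i ∈ range l.length, (l.getD i 0 : ℝ) / (b : ℝ) ^ (i + 1) := by
  have hb0 : (b : ℝ) ≠ 0 := by positivity
  induction l using List.reverseRecOn with
  | nil => simp [val]
  | append_singleton l c ih =>
    rw [List.length_append, List.length_singleton, sum_range_succ]
    have h1 : ∀ i ∈ range l.length, ((l ++ [c]).getD i 0 : ℝ) / (b : ℝ) ^ (i + 1) =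
        (l.getD i 0 : ℝ) / (b : ℝ) ^ (i + 1) := by
      intro i hi
      rw [List.getD_append _ _ _ _ (mem_range.1 hi)]
    rw [sum_congr rfl h1, ← ih]
    have h2 : (l ++ [c]).getD l.length 0 = c := by simp [List.getD_eq_getElem?_getD]
    rw [h2]
    unfold val
    rw [List.reverse_append, List.reverse_singleton, List.singleton_append, Nat.ofDigits_cons,
      List.length_append, List.length_singleton]
    push_cast
    rw [pow_succ]
    field_simp
    ring

private theorem val_append (b : ℕ) (hb : 2 ≤ b) (l l' : List ℕ) :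
    val b (l ++ l') = val b l + val b l' / (b : ℝ) ^ l.length := by
  have hb0 : (b : ℝ) ≠ 0 := by positivity
  unfold val
  rw [List.reverse_append, Nat.ofDigits_append, List.length_append, List.length_reverse]
  push_cast
  rw [pow_add]
  field_simp
  ring

private theorem val_expansion (b m : ℕ) :
    val b (expansion b m) = (m : ℝ) / (b : ℝ) ^ (Nat.digits b m).length := by
  unfold val expansion
  rw [List.reverse_reverse, Nat.ofDigits_digits, List.length_reverse]

private theorem val_word (b : ℕ) (hb : 2 ≤ b) (a : ℕ → ℕ) (N : ℕ) :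
    val b (word b a N) = ∑ n ∈ range N, (a n : ℝ) /
      (b : ℝ) ^ (∑ i ∈ range (n + 1), (Nat.digits b (a i)).length) := by
  have hb0 : (b : ℝ) ≠ 0 := by positivity
  induction N with
  | zero => simp [word, val]
  | succ N ih =>
    rw [word_succ, val_append b hb, ih, sum_range_succ, val_expansion, word_length, sum_range_succ,
      pow_add, div_div, mul_comm ((b : ℝ) ^ (Nat.digits b (a N)).length)]

/-- the digits of the word -/
private theorem exists_digits (b : ℕ) (hb : 2 ≤ b) (a : ℕ → ℕ) (hpos : ∀ n, 0 < a n) :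
    ∃ d : ℕ → ℕ, (∀ i, d i < b) ∧ ∀ N i (h : i < (word b a N).length), d i = (word b a N)[i] := by
  have hlen : ∀ i, i < (word b a (i + 1)).length := fun i => le_length b a hpos (i + 1)
  refine ⟨fun i => (word b a (i + 1))[i]'(hlen i), fun i => ?_, fun N i h => ?_⟩
  · have h1 := List.getElem_mem (hlen i)
    unfold word at h1
    rw [List.mem_flatten] at h1
    obtain ⟨l, hl, h2⟩ := h1
    rw [List.mem_map] at hl
    obtain ⟨n, -, rfl⟩ := hl
    unfold expansion at h2
    rw [List.mem_reverse] at h2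
    exact Nat.digits_lt_base hb h2
  · rcases le_total (i + 1) N with h1 | h1
    · exact (word_prefix b a h1).getElem (hlen i)
    · exact ((word_prefix b a h1).getElem h).symm

private theorem transcendental_xi (k b : ℕ) (hk : 2 ≤ k) (hb : 2 ≤ b) (a : ℕ → ℕ)
    (hmono : StrictMono a) (hpos : ∀ n, 0 < a n)
    (hfg : (Submodule.span ℤ {f : ℕ → ℤ | ∃ e r : ℕ, r < k ^ e ∧
          f = fun n => ((a (k ^ e * n + r) : ℕ) : ℤ)}).FG) :
    Transcendental ℚ (Pool.Agent.Sub.xi b a) := by
  intro halg
  obtain ⟨d, V, A, w, hV, hw⟩ := Pool.Agent.Sub.regular_basis k hk a hfg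
  obtain ⟨C₁, h₁, hgrV⟩ := Pool.Agent.Sub.regular_growth k hk d V A hV
  obtain ⟨C₂, hgr⟩ : ∃ C₂ : ℕ, ∀ n, a n ≤ C₂ * (n + 1) ^ h₁ := by
    refine ⟨∑ j, (w j).natAbs * C₁, fun n => ?_⟩
    have h1 : ((a n : ℕ) : ℤ) ≤ ((∑ j, (w j).natAbs * C₁) * (n + 1) ^ h₁ : ℕ) := by
      rw [hw n]
      push_cast
      rw [dotProduct, Finset.sum_mul]
      refine Finset.sum_le_sum fun j _ => ?_
      calc w j * V n j ≤ |w j * V n j| := le_abs_self _
        _ = |w j| * |V n j| := abs_mul _ _
        _ ≤ |w j| * (C₁ * ((n : ℤ) + 1) ^ h₁) :=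
            mul_le_mul_of_nonneg_left (hgrV n j) (abs_nonneg _)
        _ = _ := by ring
    exact_mod_cast h1
  have hirr : Irrational (Pool.Agent.Sub.xi b a) :=
    Pool.Agent.Sub.xi_irrational b hb a hmono hpos C₂ h₁ hgr
  obtain ⟨d', c, T, C, r, s, p, hc, hs, hr, h⟩ := Pool.Agent.Sub.approx k b hk hb a hmono hpos hfg
  exact Pool.Agent.Sub.no_alg_approx_of
    (fun hA b n hb hn L hL M hM hLr δ hδ C q hq ex B hB hvol hex hB1 hB2 x hx hdiv hsmall =>
      Pool.Agent.Sub.subspace hA b n hb hn L hL M hM hLr δ hδ C q hq ex B hB hvol hex hB1 hB2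
        x hx hdiv hsmall)
    (Pool.Agent.Sub.xi b a) halg hirr b hb d' c hc T C r s p hs hr h

/-- the number with the digits `d` -/
private theorem hasSum_digits (b : ℕ) (hb : 2 ≤ b) (a : ℕ → ℕ) (hpos : ∀ n, 0 < a n) (d : ℕ → ℕ)
    (hd : ∀ i, d i < b) (hw : ∀ N i (h : i < (word b a N).length), d i = (word b a N)[i]) :
    ∃ x : ℝ, HasSum (fun i => (d i : ℝ) / (b : ℝ) ^ (i + 1)) x ∧
      HasSum (fun n => (a n : ℝ) /
        (b : ℝ) ^ (∑ i ∈ range (n + 1), (Nat.digits b (a i)).length)) x ∧ 0 < x ∧ x ≤ 1 := by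
  have hb1 : (1 : ℝ) < b := by exact_mod_cast hb
  have hb0 : (0 : ℝ) < b := by linarith
  obtain ⟨f, hf⟩ : ∃ f : ℕ → ℝ, ∀ i, f i = (d i : ℝ) / (b : ℝ) ^ (i + 1) := ⟨_, fun _ => rfl⟩
  obtain ⟨g, hg⟩ : ∃ g : ℕ → ℝ, ∀ n, g n = (a n : ℝ) /
      (b : ℝ) ^ (∑ i ∈ range (n + 1), (Nat.digits b (a i)).length) := ⟨_, fun _ => rfl⟩
  have hf0 : ∀ i, 0 ≤ f i := fun i => by rw [hf]; positivity
  have hg0 : ∀ i, 0 ≤ g i := fun i => by rw [hg]; positivity
  -- the partial sums agree
  have hpart : ∀ N, ∑ i ∈ range (word b a N).length, f i = ∑ n ∈ range N, g n := by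
    intro N
    have h1 := val_word b hb a N
    rw [val_eq_sum b hb] at h1
    rw [sum_congr rfl fun n _ => hg n, ← h1]
    refine sum_congr rfl fun i hi => ?_
    rw [hf, hw N i (mem_range.1 hi)]
    congr 2
    exact (List.getD_eq_getElem _ _ (mem_range.1 hi)).symm
  -- the geometric series
  have hgeo : HasSum (fun i : ℕ => ((b : ℝ) - 1) / (b : ℝ) ^ (i + 1)) 1 := by
    have h1 := (hasSum_geometric_of_lt_one (inv_nonneg.2 hb0.le)
      (inv_lt_one_of_one_lt₀ hb1)).mul_left (((b : ℝ) - 1) / b)
    have h2 : ((b : ℝ) - 1) / b * (1 - (b : ℝ)⁻¹)⁻¹ = 1 := by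
      have : (b : ℝ) - 1 ≠ 0 := by linarith
      field_simp
    rw [h2] at h1
    refine h1.congr_fun ?_ |> fun h => h
    intro i
    rw [inv_pow, pow_succ]
    field_simp
  have hfle : ∀ i, f i ≤ ((b : ℝ) - 1) / (b : ℝ) ^ (i + 1) := by
    intro i
    rw [hf]
    have h1 : (d i : ℝ) ≤ (b : ℝ) - 1 := by
      have h2 : d i + 1 ≤ b := hd i
      have h3 : ((d i + 1 : ℕ) : ℝ) ≤ (b : ℝ) := by exact_mod_cast h2
      push_cast at h3
      linarith
    gcongr
  have hfs : Summable f := Summable.of_nonneg_of_le hf0 hfle hgeo.summable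
  have hx := hfs.hasSum
  have hgx : HasSum g (∑' i, f i) := by
    rw [hasSum_iff_tendsto_nat_of_nonneg hg0]
    have h1 : Filter.Tendsto (fun N => (word b a N).length) Filter.atTop Filter.atTop :=
      Filter.tendsto_atTop_mono (le_length b a hpos) Filter.tendsto_id
    have h2 := hx.tendsto_sum_nat.comp h1
    refine h2.congr fun N => ?_
    exact hpart N
  refine ⟨∑' i, f i, ?_, ?_, ?_, ?_⟩
  · have h1 : (fun i => (d i : ℝ) / (b : ℝ) ^ (i + 1)) = f := (funext hf).symm
    rw [h1]
    exact hx
  · have h1 : (fun n => (a n : ℝ) /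
      (b : ℝ) ^ (∑ i ∈ range (n + 1), (Nat.digits b (a i)).length)) = g := (funext hg).symm
    rw [h1]
    exact hgx
  · refine lt_of_lt_of_le ?_ (hgx.summable.le_tsum 0 (fun i _ => hg0 i) |>.trans hgx.tsum_eq.le)
    rw [hg]
    have : (0 : ℝ) < a 0 := by exact_mod_cast hpos 0
    positivity
  · have h1 := Summable.tsum_le_tsum hfle hfs hgeo.summable
    rwa [hgeo.tsum_eq] at h1

/-- **Concatenation constants of regular sequences are transcendental.** Let `k, b ≥ 2` and let `a` be a
`k`-regular sequence of positive integers which is strictly increasing from some index on. There are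
digits `d(0), d(1), … < b` such that the infinite word `d(0) d(1) …` begins with the base-`b` expansions of
`a(0), …, a(N-1)` written one after another, for every `N`, and a real number `x`, `0 < x < 1`, which has the
base-`b` digits `d(0), d(1), …` after the radix point; `x` is transcendental. -/
theorem result (k b : ℕ) (hk : 2 ≤ k) (hb : 2 ≤ b) (a : ℕ → ℕ) (hpos : ∀ n, 0 < a n)
    (hinc : ∃ N, ∀ n, N ≤ n → a n < a (n + 1)) (hreg : IsRegular k (fun n => (a n : ℤ))) :
    ∃ (d : ℕ → ℕ) (x : ℝ), (∀ i, d i < b) ∧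
      (∀ N i (h : i < (word b a N).length), d i = (word b a N)[i]) ∧
      HasSum (fun i => (d i : ℝ) / (b : ℝ) ^ (i + 1)) x ∧ 0 < x ∧ x < 1 ∧ Transcendental ℚ x := by
  have hb0 : (b : ℝ) ≠ 0 := by positivity
  obtain ⟨d, hd, hw⟩ := exists_digits b hb a hpos
  obtain ⟨x, hx, hxa, hx0, hx1⟩ := hasSum_digits b hb a hpos d hd hw
  obtain ⟨M, hM⟩ := hinc
  have htr : Transcendental ℚ (Pool.Agent.Sub.xi b (fun n => a (n + M))) := by
    refine transcendental_xi k b hk hb _ (strictMono_nat_of_lt_succ fun n => ?_)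
      (fun n => hpos _) ?_
    · have h1 := hM (n + M) (Nat.le_add_left _ _)
      rw [show n + 1 + M = n + M + 1 by ring]
      exact h1
    · exact shift_fg k hk _ hreg M
  have hxt : Transcendental ℚ x := by
    intro halg
    apply htr
    -- `x = q + xi / b ^ L`
    obtain ⟨L, hL⟩ : ∃ L, L = ∑ i ∈ range M, (Nat.digits b (a i)).length := ⟨_, rfl⟩
    have h1 := (Summable.sum_add_tsum_nat_add M hxa.summable).trans hxa.tsum_eq
    have h2 : ∀ n, (a (n + M) : ℝ) /
        (b : ℝ) ^ (∑ i ∈ range (n + M + 1), (Nat.digits b (a i)).length) =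
        ((b : ℝ) ^ L)⁻¹ * ((a (n + M) : ℝ) /
          (b : ℝ) ^ (∑ i ∈ range (n + 1), (Nat.digits b (a (i + M))).length)) := by
      intro n
      have h3 : ∑ i ∈ range (n + M + 1), (Nat.digits b (a i)).length =
          L + ∑ i ∈ range (n + 1), (Nat.digits b (a (i + M))).length := by
        rw [hL, show n + M + 1 = M + (n + 1) by ring, sum_range_add]
        congr 1
        exact sum_congr rfl fun i _ => by rw [add_comm]
      rw [h3, pow_add, ← div_div, div_eq_mul_inv (a (n + M) : ℝ), div_eq_mul_inv, div_eq_mul_inv]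
      ring
    rw [tsum_congr h2, tsum_mul_left] at h1
    have h4 : Pool.Agent.Sub.xi b (fun n => a (n + M)) = (b : ℝ) ^ L * (x - ∑ i ∈ range M,
        (a i : ℝ) / (b : ℝ) ^ (∑ j ∈ range (i + 1), (Nat.digits b (a j)).length)) := by
      rw [← h1, add_sub_cancel_left, mul_inv_cancel_left₀ (pow_ne_zero _ hb0)]
      rfl
    rw [h4]
    have hq : ∀ m : ℕ, IsAlgebraic ℚ (m : ℝ) := fun m => isAlgebraic_natCast m
    refine ((hq b).pow L).mul (halg.sub ?_)
    refine isAlgebraic_iff_isIntegral.2 (IsIntegral.sum _ fun i _ => ?_)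
    rw [div_eq_mul_inv]
    exact isAlgebraic_iff_isIntegral.1 ((hq _).mul ((hq b).pow _).inv)
  refine ⟨d, x, hd, hw, hx, hx0, lt_of_le_of_ne hx1 ?_, hxt⟩
  rintro rfl
  exact hxt isAlgebraic_one

end Pool.Agent.Results.MP_10b5ac_nt.Concatenation
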